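import Pool.Agent.Helper19.SDim.Spec

noncomputable section

open MeasureTheory Filter Set Metric
open scoped Topology ENNReal NNReal RealInnerProductSpace ContDiff Gradient

namespace Helper49.SDim

open Helper19.SDim

theorem norm_gradient_eq {N : ℕ} (φ : E N → ℝ) (x : E N) : ‖∇ φ x‖ = ‖fderiv ℝ φ x‖ := by
  unfold gradient
  exact LinearIsometryEquiv.norm_map _ _

theorem continuous_gradient {N : ℕ} {φ : E N → ℝ} (h : ContDiff ℝ 1 φ) :
    Continuous (fun x => ∇ φ x) := by
  unfold gradient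
  exact (LinearIsometryEquiv.continuous _).comp (h.continuous_fderiv one_ne_zero)

/-- The `L^p` norm of the derivative on the whole space, for a function supported in `Ω`. -/
theorem eLpNorm_fderiv_eq {N : ℕ} {Ω : Set (E N)} {φ : E N → ℝ} (h : C1c Ω φ) (q : ℝ≥0∞) :
    eLpNorm (fderiv ℝ φ) q volume = eLpNorm (fun x => ∇ φ x) q (volume.restrict Ω) := by
  rw [← eLpNorm_restrict_eq_of_support_subset (s := Ω) (f := fderiv ℝ φ)]
  · exact eLpNorm_congr_norm_ae (Eventually.of_forall fun x => (norm_gradient_eq φ x).symm)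
  · exact (support_fderiv_subset ℝ).trans h.2.2

theorem eLpNorm_eq {N : ℕ} {Ω : Set (E N)} {φ : E N → ℝ} (h : C1c Ω φ) (q : ℝ≥0∞) :
    eLpNorm φ q (volume.restrict Ω) = eLpNorm φ q volume := by
  rw [eLpNorm_restrict_eq_of_support_subset]
  exact (subset_tsupport φ).trans h.2.2

/-- `‖∇ φ_n‖_p` is asymptotically at most `‖V‖_p`. -/
theorem apx_grad_le {N : ℕ} {Ω : Set (E N)} {p : ℝ} (hp : 1 ≤ p) {φ : ℕ → E N → ℝ} {v : E N → ℝ}
    {V : E N → E N} (h : Apx Ω p φ v V) (n : ℕ) :
    eLpNorm (fun x => ∇ (φ n) x) (ENNReal.ofReal p) (volume.restrict Ω) ≤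
      eLpNorm (fun x => ∇ (φ n) x - V x) (ENNReal.ofReal p) (volume.restrict Ω) +
      eLpNorm V (ENNReal.ofReal p) (volume.restrict Ω) := by
  have h1 : (fun x => ∇ (φ n) x) = (fun x => ∇ (φ n) x - V x) + V := by
    funext x; simp
  have hm : AEStronglyMeasurable (fun x => ∇ (φ n) x - V x) (volume.restrict Ω) :=
    ((continuous_gradient (h.c1 n).1).aestronglyMeasurable).sub h.mG.1
  conv_lhs => rw [h1]
  exact eLpNorm_add_le hm h.mG.1 (by simpa using hp)

theorem apx_fun_le {N : ℕ} {Ω : Set (E N)} {p : ℝ} (hp : 1 ≤ p) {φ : ℕ → E N → ℝ} {v : E N → ℝ}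
    {V : E N → E N} (h : Apx Ω p φ v V) (n : ℕ) :
    eLpNorm v (ENNReal.ofReal p) (volume.restrict Ω) ≤
      eLpNorm (fun x => φ n x - v x) (ENNReal.ofReal p) (volume.restrict Ω) +
      eLpNorm (φ n) (ENNReal.ofReal p) (volume.restrict Ω) := by
  have h1 : v = φ n - (fun x => φ n x - v x) := by
    funext x; simp
  have hm : AEStronglyMeasurable (fun x => φ n x - v x) (volume.restrict Ω) :=
    ((h.c1 n).1.continuous.aestronglyMeasurable).sub h.mu.1
  conv_lhs => rw [h1]
  rw [add_comm]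
  exact eLpNorm_sub_le ((h.c1 n).1.continuous.aestronglyMeasurable) hm (by simpa using hp)

theorem poin_thm : S_POIN := by
  intro N p Ω hN hp hp2 hb hΩ
  have hfr : Module.finrank ℝ (E N) = N := by simp [E]
  set P : ℝ≥0 := p.toNNReal with hP
  have hPp : (P : ℝ) = p := Real.coe_toNNReal p (by linarith)
  have hPe : (P : ℝ≥0∞) = ENNReal.ofReal p := rfl
  have h1P : 1 ≤ P := by
    rw [← NNReal.coe_le_coe, hPp]; simpa using hp.le
  have hPn : P < (Module.finrank ℝ (E N) : ℝ≥0) := by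
    rw [← NNReal.coe_lt_coe, hPp, hfr]
    have : (2 : ℝ) ≤ N := by exact_mod_cast hN
    push_cast
    linarith
  refine ⟨eLpNormLESNormFDerivOfLeConst ℝ (volume : Measure (E N)) Ω P P, ?_⟩
  set C := eLpNormLESNormFDerivOfLeConst ℝ (volume : Measure (E N)) Ω P P with hC
  rintro v V ⟨φ, h⟩
  have key : ∀ n, eLpNorm v (ENNReal.ofReal p) (volume.restrict Ω) ≤
      eLpNorm (fun x => φ n x - v x) (ENNReal.ofReal p) (volume.restrict Ω) +
      C * (eLpNorm (fun x => ∇ (φ n) x - V x) (ENNReal.ofReal p) (volume.restrict Ω) +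
      eLpNorm V (ENNReal.ofReal p) (volume.restrict Ω)) := by
    intro n
    refine (apx_fun_le hp.le h n).trans ?_
    gcongr
    have h2 := eLpNorm_le_eLpNorm_fderiv (volume : Measure (E N)) (h.c1 n).1
      ((subset_tsupport (φ n)).trans (h.c1 n).2.2) h1P hPn hb
    rw [hPe] at h2
    rw [eLpNorm_eq (h.c1 n)]
    refine h2.trans ?_
    rw [eLpNorm_fderiv_eq (h.c1 n)]
    gcongr
    exact apx_grad_le hp.le h n
  have hlim : Tendsto (fun n => eLpNorm (fun x => φ n x - v x) (ENNReal.ofReal p) (volume.restrict Ω) +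
      C * (eLpNorm (fun x => ∇ (φ n) x - V x) (ENNReal.ofReal p) (volume.restrict Ω) +
      eLpNorm V (ENNReal.ofReal p) (volume.restrict Ω))) atTop
      (𝓝 (0 + C * (0 + eLpNorm V (ENNReal.ofReal p) (volume.restrict Ω)))) := by
    apply h.tu.add
    apply ENNReal.Tendsto.const_mul _ (Or.inr ENNReal.coe_ne_top)
    exact h.tG.add tendsto_const_nhds
  have := ge_of_tendsto' hlim key
  simpa using this

end Helper49.SDim
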