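import Pool.Agent.Helper19.SDim.Spec

noncomputable section

open MeasureTheory Filter Set Metric
open scoped Topology ENNReal NNReal RealInnerProductSpace ContDiff Gradient

namespace Helper49.SDim

open Helper19.SDim

/-- Scalar uniform convexity of `z ^ p`. -/
theorem scalar_convex (p s t : ℝ) (hp : 1 < p) (hp2 : p < 2) (hs : 0 ≤ s) (ht : 0 ≤ t)
    (hst : 0 < s + t) :
    ((s + t) / 2) ^ p + p * (p - 1) / 2 * (s + t) ^ (p - 2) * ((s - t) / 2) ^ 2 ≤
      (s ^ p + t ^ p) / 2 := by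
  set M := s + t with hM
  set c := p * (p - 1) / 2 * M ^ (p - 2) with hc
  have hconv : ConvexOn ℝ (Icc 0 M) (fun z : ℝ => z ^ p - c * z ^ 2) := by
    have hint : interior (Icc (0 : ℝ) M) = Ioo 0 M := interior_Icc
    refine convexOn_of_hasDerivWithinAt2_nonneg (f' := fun z => p * z ^ (p - 1) - c * (2 * z))
      (f'' := fun z => p * ((p - 1) * z ^ (p - 2)) - c * 2) (convex_Icc 0 M) ?_ ?_ ?_ ?_
    · apply ContinuousOn.sub
      · exact (Real.continuous_rpow_const (by linarith)).continuousOn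
      · fun_prop
    · intro x hx
      rw [hint] at hx
      have h1 : HasDerivAt (fun z : ℝ => z ^ p) (p * x ^ (p - 1)) x :=
        Real.hasDerivAt_rpow_const (Or.inl hx.1.ne')
      have h2 : HasDerivAt (fun z : ℝ => c * z ^ 2) (c * (2 * x)) x := by
        simpa using (hasDerivAt_pow 2 x).const_mul c
      exact (h1.sub h2).hasDerivWithinAt
    · intro x hx
      rw [hint] at hx
      have h1 : HasDerivAt (fun z : ℝ => p * z ^ (p - 1)) (p * ((p - 1) * x ^ (p - 2))) x := by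
        have := (Real.hasDerivAt_rpow_const (x := x) (p := p - 1) (Or.inl hx.1.ne')).const_mul p
        have h3 : p - 1 - 1 = p - 2 := by ring
        rw [h3] at this
        exact this
      have h2 : HasDerivAt (fun z : ℝ => c * (2 * z)) (c * 2) x := by
        have := ((hasDerivAt_id x).const_mul 2).const_mul c
        simpa using this
      exact (h1.sub h2).hasDerivWithinAt
    · intro x hx
      rw [hint] at hx
      have h1 : M ^ (p - 2) ≤ x ^ (p - 2) :=
        Real.rpow_le_rpow_of_nonpos hx.1 hx.2.le (by linarith)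
      have h2 : 0 ≤ p * (p - 1) := by nlinarith
      rw [hc]
      nlinarith [mul_le_mul_of_nonneg_left h1 h2]
  have hsM : s ∈ Icc (0 : ℝ) M := ⟨hs, by linarith⟩
  have htM : t ∈ Icc (0 : ℝ) M := ⟨ht, by linarith⟩
  have key := hconv.2 hsM htM (by norm_num : (0 : ℝ) ≤ 1 / 2) (by norm_num : (0 : ℝ) ≤ 1 / 2)
    (by norm_num)
  simp only [smul_eq_mul] at key
  have e1 : (1 / 2 : ℝ) * s + 1 / 2 * t = M / 2 := by rw [hM]; ring
  rw [e1] at key
  have e2 : c * ((s - t) / 2) ^ 2 = c * ((s ^ 2 + t ^ 2) / 2 - (M / 2) ^ 2) := by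
    rw [hM]; ring
  rw [e2]
  nlinarith [key]

theorem vec_one (N : ℕ) (p : ℝ) (hp : 1 < p) (hp2 : p < 2) (a b : E N) :
    p * (p - 1) / 8 * (‖a - b‖ ^ 2 * (‖a‖ + ‖b‖) ^ (p - 2)) ≤
      (‖a‖ ^ p + ‖b‖ ^ p) / 2 - ‖(1 / 2 : ℝ) • (a + b)‖ ^ p := by
  set s := ‖a‖ with hs
  set t := ‖b‖ with ht
  have hs0 : 0 ≤ s := norm_nonneg a
  have ht0 : 0 ≤ t := norm_nonneg b
  rcases (add_nonneg hs0 ht0).eq_or_lt with h0 | hpos
  · -- a = b = 0
    have hs1 : s = 0 := by linarith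
    have ht1 : t = 0 := by linarith
    have ha : a = 0 := norm_eq_zero.mp hs1
    have hb : b = 0 := norm_eq_zero.mp ht1
    have hp0 : p ≠ 0 := by linarith
    simp [hs1, ht1, ha, hb, Real.zero_rpow hp0]
  set X := ‖(1 / 2 : ℝ) • (a + b)‖ with hX
  have hX0 : 0 ≤ X := norm_nonneg _
  have hpar : X ^ 2 + ‖a - b‖ ^ 2 / 4 = (s ^ 2 + t ^ 2) / 2 := by
    have h1 : X = ‖a + b‖ / 2 := by
      rw [hX, norm_smul]; norm_num; ring
    have h2 := parallelogram_law_with_norm ℝ a b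
    rw [h1]
    nlinarith [h2]
  have hXle : X ≤ (s + t) / 2 := by
    rw [hX, norm_smul]
    have := norm_add_le a b
    norm_num
    linarith
  -- monotonicity of `z ^ (p/2)`
  set M := s + t with hM
  have hsc := scalar_convex p s t hp hp2 hs0 ht0 hpos
  -- X^p = (X^2)^(p/2)
  have hXp : X ^ p = (X ^ 2) ^ (p / 2) := by
    rw [← Real.rpow_natCast X 2, ← Real.rpow_mul hX0]; congr 1; push_cast; ring
  have hMp : (M / 2) ^ p = ((M / 2) ^ 2) ^ (p / 2) := by
    rw [← Real.rpow_natCast (M / 2) 2, ← Real.rpow_mul (by positivity)]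
    congr 1; push_cast; ring
  -- tangent inequality for the concave power: (X^2)^(p/2) ≤ B^(p/2) + (p/2) B^(p/2-1) (X^2 - B)
  set B := (M / 2) ^ 2 with hB
  have hBpos : 0 < B := by positivity
  have htan : (X ^ 2) ^ (p / 2) ≤ B ^ (p / 2) + p / 2 * B ^ (p / 2 - 1) * (X ^ 2 - B) := by
    have hbern : (1 + (X ^ 2 / B - 1)) ^ (p / 2) ≤ 1 + p / 2 * (X ^ 2 / B - 1) :=
      rpow_one_add_le_one_add_mul_self (by
        have : 0 ≤ X ^ 2 / B := by positivity
        linarith) (by linarith) (by linarith)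
    have e1 : 1 + (X ^ 2 / B - 1) = X ^ 2 / B := by ring
    rw [e1, Real.div_rpow (by positivity) hBpos.le, div_le_iff₀ (by positivity)] at hbern
    have e2 : B ^ (p / 2 - 1) = B ^ (p / 2) / B := by
      rw [Real.rpow_sub_one hBpos.ne']
    rw [e2]
    have e3 : B ^ (p / 2) + p / 2 * (B ^ (p / 2) / B) * (X ^ 2 - B) =
        (1 + p / 2 * (X ^ 2 / B - 1)) * B ^ (p / 2) := by
      field_simp
    rw [e3]
    exact hbern
  have hBe : B ^ (p / 2 - 1) = (M / 2) ^ (p - 2) := by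
    rw [hB, ← Real.rpow_natCast (M / 2) 2, ← Real.rpow_mul (by positivity)]
    congr 1; push_cast; ring
  have hM2 : M ^ (p - 2) ≤ (M / 2) ^ (p - 2) :=
    Real.rpow_le_rpow_of_nonpos (by positivity) (by linarith) (by linarith)
  have hBX : B - X ^ 2 = ‖a - b‖ ^ 2 / 4 - ((s - t) / 2) ^ 2 := by
    rw [hB, hM]; nlinarith [hpar]
  have hBX0 : 0 ≤ B - X ^ 2 := by
    have : X ^ 2 ≤ (M / 2) ^ 2 := pow_le_pow_left₀ hX0 hXle 2
    rw [hB]; linarith
  have hMpos : 0 < M ^ (p - 2) := by positivity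
  rw [hXp]
  rw [hMp] at hsc
  rw [hBe] at htan
  have hq : p * (p - 1) / 2 * M ^ (p - 2) * (B - X ^ 2) ≤ p / 2 * (M / 2) ^ (p - 2) * (B - X ^ 2) := by
    apply mul_le_mul_of_nonneg_right _ hBX0
    have h1 : p * (p - 1) / 2 ≤ p / 2 := by nlinarith
    have h2 : 0 ≤ p / 2 := by linarith
    calc p * (p - 1) / 2 * M ^ (p - 2) ≤ p / 2 * M ^ (p - 2) :=
          mul_le_mul_of_nonneg_right h1 hMpos.le
      _ ≤ p / 2 * (M / 2) ^ (p - 2) := mul_le_mul_of_nonneg_left hM2 h2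
  have hfin : p * (p - 1) / 8 * (‖a - b‖ ^ 2 * M ^ (p - 2)) =
      p * (p - 1) / 2 * M ^ (p - 2) * ((B - X ^ 2) + ((s - t) / 2) ^ 2) := by
    rw [hBX]; ring
  rw [hfin]
  nlinarith [htan, hsc, hq]

theorem vec_two (N : ℕ) (p : ℝ) (hp : 1 < p) (a b : E N) :
    ‖b‖ ^ p + p * (‖b‖ ^ (p - 2) * ⟪b, a - b⟫) ≤ ‖a‖ ^ p := by
  have hp0 : p ≠ 0 := by linarith
  rcases eq_or_ne b 0 with rfl | hb
  · simp [Real.zero_rpow hp0]
    positivity
  set s := ‖a‖ with hs
  set t := ‖b‖ with ht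
  have hs0 : 0 ≤ s := norm_nonneg a
  have ht0 : 0 < t := norm_pos_iff.mpr hb
  have hin : ⟪b, a - b⟫ ≤ t * s - t ^ 2 := by
    rw [inner_sub_right, real_inner_self_eq_norm_sq]
    have := real_inner_le_norm b a
    linarith
  have h1 : p * (t ^ (p - 2) * ⟪b, a - b⟫) ≤ p * (t ^ (p - 2) * (t * s - t ^ 2)) := by
    apply mul_le_mul_of_nonneg_left _ (by linarith)
    exact mul_le_mul_of_nonneg_left hin (by positivity)
  have hbern : 1 + p * (s / t - 1) ≤ (1 + (s / t - 1)) ^ p :=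
    one_add_mul_self_le_rpow_one_add (by
      have : 0 ≤ s / t := by positivity
      linarith) (by linarith)
  have e1 : 1 + (s / t - 1) = s / t := by ring
  rw [e1, Real.div_rpow hs0 ht0.le, le_div_iff₀ (by positivity)] at hbern
  have e2 : t ^ (p - 2) * t ^ 2 = t ^ p := by
    rw [← Real.rpow_natCast t 2, ← Real.rpow_add ht0]; congr 1; push_cast; ring
  have e3 : t ^ (p - 2) * (t * s - t ^ 2) = t ^ p * (s / t - 1) := by
    rw [← e2]; field_simp
  rw [e3] at h1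
  nlinarith [h1, hbern]

theorem vec_three (N : ℕ) (p : ℝ) (hp : 1 < p) (a b : E N) (hab : a ≠ b) :
    0 < ⟪‖a‖ ^ (p - 2) • a - ‖b‖ ^ (p - 2) • b, a - b⟫ := by
  have hp0 : p ≠ 0 := by linarith
  have hexp : ⟪‖a‖ ^ (p - 2) • a - ‖b‖ ^ (p - 2) • b, a - b⟫ =
      ‖a‖ ^ (p - 2) * ‖a‖ ^ 2 + ‖b‖ ^ (p - 2) * ‖b‖ ^ 2 -
        (‖a‖ ^ (p - 2) + ‖b‖ ^ (p - 2)) * ⟪a, b⟫ := by
    rw [inner_sub_left, inner_sub_right, inner_sub_right, real_inner_smul_left,
      real_inner_smul_left, real_inner_smul_left, real_inner_smul_left,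
      real_inner_self_eq_norm_sq, real_inner_self_eq_norm_sq, real_inner_comm a b]
    ring
  rw [hexp]
  rcases eq_or_ne a 0 with rfl | ha
  · have hb : b ≠ 0 := fun h => hab h.symm
    have : 0 < ‖b‖ := norm_pos_iff.mpr hb
    simp only [norm_zero, inner_zero_left]
    have h2 : 0 < ‖b‖ ^ (p - 2) * ‖b‖ ^ 2 := by positivity
    nlinarith [h2]
  rcases eq_or_ne b 0 with rfl | hb
  · have : 0 < ‖a‖ := norm_pos_iff.mpr ha
    simp only [norm_zero, inner_zero_right]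
    have h2 : 0 < ‖a‖ ^ (p - 2) * ‖a‖ ^ 2 := by positivity
    nlinarith [h2]
  set s := ‖a‖ with hs
  set t := ‖b‖ with ht
  have hs0 : 0 < s := norm_pos_iff.mpr ha
  have ht0 : 0 < t := norm_pos_iff.mpr hb
  have hcs : ⟪a, b⟫ ≤ s * t := real_inner_le_norm a b
  have hS : 0 < s ^ (p - 2) := by positivity
  have hT : 0 < t ^ (p - 2) := by positivity
  by_cases hst : s = t
  · have hn : ‖a - b‖ ^ 2 = s ^ 2 - 2 * ⟪a, b⟫ + t ^ 2 := norm_sub_sq_real a b
    have hpos : 0 < ‖a - b‖ ^ 2 := by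
      have : 0 < ‖a - b‖ := norm_pos_iff.mpr (sub_ne_zero.mpr hab)
      positivity
    rw [← hst] at hn ⊢
    nlinarith [mul_pos hS hpos]
  · have h1 : (s ^ (p - 2) + t ^ (p - 2)) * ⟪a, b⟫ ≤ (s ^ (p - 2) + t ^ (p - 2)) * (s * t) :=
      mul_le_mul_of_nonneg_left hcs (by positivity)
    have h2 : 0 < (s ^ (p - 1) - t ^ (p - 1)) * (s - t) := by
      rcases lt_or_gt_of_ne hst with h | h
      · have : s ^ (p - 1) < t ^ (p - 1) := Real.rpow_lt_rpow hs0.le h (by linarith)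
        nlinarith
      · have : t ^ (p - 1) < s ^ (p - 1) := Real.rpow_lt_rpow ht0.le h (by linarith)
        nlinarith
    have e1 : s ^ (p - 1) = s ^ (p - 2) * s := by
      rw [← Real.rpow_add_one hs0.ne']; congr 1; ring
    have e2 : t ^ (p - 1) = t ^ (p - 2) * t := by
      rw [← Real.rpow_add_one ht0.ne']; congr 1; ring
    rw [e1, e2] at h2
    nlinarith [h1, h2]

theorem vec_thm : S_VEC := by
  intro N p hp hp2
  refine ⟨⟨p * (p - 1) / 8, by nlinarith, fun a b => vec_one N p hp hp2 a b⟩,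
    fun a b => vec_two N p hp a b, fun a b hab => vec_three N p hp a b hab⟩

end Helper49.SDim
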